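import Pool.Agent.W886.AM.Stm0

/-!
# `NP` is in `MA` and in `AM`
-/

set_option autoImplicit false

namespace Pool.Agent.W303.AM

open Pool.Agent.NPC Pool.Agent.H620R2.Gauge Pool.Agent.W900.RB Pool.Agent.W895.MA

theorem amPr_one' {V : List Bool → List Bool} {m : ℕ} {x : List Bool}
    (h : ∀ w : List Bool, w.length = m → ∃ y : List Bool, y.length ≤ m ∧
      V (pairBits w (pairBits y x)) = [true]) : amPr V m x = 1 := by
  unfold amPr
  have h1 : Nat.card {w : Fin m → Bool // ∃ y : List Bool, y.length ≤ m ∧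
      V (pairBits (List.ofFn w) (pairBits y x)) = [true]} = Nat.card (Fin m → Bool) := by
    apply Nat.card_congr
    exact Equiv.subtypeUnivEquiv (fun w => h _ (by simp))
  rw [h1]
  simp

theorem amPr_zero' {V : List Bool → List Bool} {m : ℕ} {x : List Bool}
    (h : ∀ w : List Bool, w.length = m → ∀ y : List Bool, y.length ≤ m →
      V (pairBits w (pairBits y x)) ≠ [true]) : amPr V m x = 0 := by
  unfold amPr
  have h1 : IsEmpty {w : Fin m → Bool // ∃ y : List Bool, y.length ≤ m ∧
      V (pairBits (List.ofFn w) (pairBits y x)) = [true]} := by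
    constructor
    rintro ⟨w, y, hy, hw⟩
    exact h _ (by simp) y hy hw
  rw [Nat.card_eq_zero.2 (Or.inl h1)]
  simp

theorem task : Pool.Agent.W886.AM.S_NPI := by
  intro A L h
  obtain ⟨V, p, hV, hL⟩ := h
  refine ⟨⟨fun z => V (unpair z).2, p, isFP_second hV, fun x => ⟨fun hx => ?_, fun hx => ?_⟩⟩,
    ⟨fun z => V (unpair z).2, p, isFP_second hV, fun x => ⟨fun hx => ?_, fun hx => ?_⟩⟩⟩
  · obtain ⟨y, hy, hv⟩ := (hL x).1 hx
    refine ⟨y, hy, ?_⟩
    rw [accPr_one]
    · norm_num
    · intro w _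
      simp only [unpair_pairBits]
      exact hv
  · intro y hy
    rw [accPr_zero]
    · norm_num
    · intro w _
      simp only [unpair_pairBits]
      exact fun hv => hx ((hL x).2 ⟨y, hy, hv⟩)
  · obtain ⟨y, hy, hv⟩ := (hL x).1 hx
    rw [amPr_one']
    · norm_num
    · intro w _
      refine ⟨y, hy, ?_⟩
      simp only [unpair_pairBits]
      exact hv
  · rw [amPr_zero']
    · norm_num
    · intro w _ y hy
      simp only [unpair_pairBits]
      exact fun hv => hx ((hL x).2 ⟨y, hy, hv⟩)

end Pool.Agent.W303.AM
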